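import Pool.Agent.SAG.Exist

/-!
# Piecewise linear values plus a concave function of the total: reduction to the ordinal problem

Every market whose value functions are sums of piecewise linear concave functions of the single
entries and of an arbitrary concave function of the total satisfies the hypotheses of the problem,
and every stable allocation of an explicit ordinal (Baïou–Balinski) stable allocation problem with
`3 |E| K` edges gives a stable allocation of it.
-/

namespace Pool.Agent.Results.MP_7297fb_lc.AggregateMarkets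

open SAQ SAG

theorem result {M W : Type} [Fintype M] [Fintype W] [DecidableEq M] [DecidableEq W]
    (d : Mkt M W) (hd : d.OK) :
    (∀ i, CondA (d.fM i) ∧ MNatConcave (d.fM i)) ∧
    (∀ j, CondA (d.fW j) ∧ MNatConcave (d.fW j)) ∧
    Fintype.card (d.Item ⊕ d.Item ⊕ d.Item) = 3 * (Fintype.card M * Fintype.card W) * d.K ∧
    (∃ ρM ρW, d.Ranks ρM ρW) ∧
    ∀ ρM ρW, d.Ranks ρM ρW →
      (d.ord ρM ρW).Strict ∧ (∃ z, (d.ord ρM ρW).Stable z) ∧
      ∀ z, (d.ord ρM ρW).Stable z → SAQ.Stable d.fM d.fW (fun i j => ∑ p, z (Sum.inl (i, j, p))) := by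
  refine ⟨fun i => ⟨agg_condA (hd.okM i), agg_mnat (hd.okM i)⟩,
    fun j => ⟨agg_condA (hd.okW j), agg_mnat (hd.okW j)⟩, ?_, exists_ranks hd, fun ρM ρW hr => ?_⟩
  · simp only [Fintype.card_sum, Fintype.card_prod, Fintype.card_fin]
    ring
  · exact ⟨strict_ord hr, exists_stable_ord hd hr, fun z hz => main hd hr hz⟩

end Pool.Agent.Results.MP_7297fb_lc.AggregateMarkets
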