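import Pool.Agent.SAG.Exist
import Pool.Agent.SAG.FewRanks

/-!
# Few agents with value functions `∑ φ_a(y_a) + ψ(∑ y_a)` against arbitrary agents

If the agents of `M` have value functions `∑ φ_a(y_a) + ψ(∑ y_a)` with arbitrary concave `ψ` and
`φ_a`, and the agents of `W` have arbitrary M♮-concave value functions, then the fixed points of an
explicit monotone map of `{0, …, |W| K} ^ M` into itself give stable allocations of the market
(`K` bounds the entries).
-/

namespace Pool.Agent.Results.MP_7297fb_lc.FewAgents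

open SAQ SAG

theorem result {M W : Type} [Fintype M] [Fintype W] [DecidableEq M] [DecidableEq W]
    (d : Few M W) (hd : d.OK) :
    (∀ i, CondA (d.fM i) ∧ MNatConcave (d.fM i)) ∧
    (∃ ρ, d.Ranks ρ) ∧
    ∀ ρ, d.Ranks ρ →
      (∀ r i, d.F ρ r i ≤ Fintype.card W * d.K) ∧
      (∀ r r', r ≤ r' → d.F ρ r ≤ d.F ρ r') ∧
      (∀ r i s, s < d.F ρ r i ↔ s < Fintype.card W * d.K ∧ d.Prof ρ r i s) ∧
      (∃ r, d.F ρ r = r) ∧
      ∀ r, d.F ρ r = r → SAQ.Stable d.fM d.fW (d.acc ρ r) :=
  ⟨fun i => ⟨agg_condA (hd.agg i), agg_mnat (hd.agg i)⟩, few_exists_ranks hd,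
    fun _ hr => ⟨fun r i => F_le r i, fun _ _ h => F_mono hd h, fun r i s => lt_F hd hr r i s,
      exists_fix_nat _ _ (fun r i => F_le r i) (fun _ _ h => F_mono hd h),
      fun _ h => few_stable hd hr h⟩⟩

end Pool.Agent.Results.MP_7297fb_lc.FewAgents
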