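import Pool.Agent.SAT.Final

/-!
# ARRIVAL reduces to stable allocations with two agents on one side

For every switch graph `G` on a finite set `V` (an instance of the ARRIVAL problem) the market
below has two agents in `M` and `6 |V|` agents in `W`, it satisfies all hypotheses of the problem,
all entries are at most `L = 2^(3 |V| + 1)`, and every stable allocation of it tells whether the
train reaches its destination.
-/

namespace Pool.Agent.Results.MP_7297fb_lc.TwoAgents

open SAQ SAT Finset

theorem result (V : Type) [Fintype V] [DecidableEq V] (G : SG V) (hod : G.o ≠ G.d) (L : ℕ)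
    (hL : L = 2 ^ (3 * Fintype.card V + 1)) :
    Fintype.card (Bool × ((V ⊕ V × Bool) × Bool)) = 12 * Fintype.card V ∧
    (∀ b, CondA (gM G L b) ∧ MNatConcave (gM G L b)) ∧
    (∀ a, CondA (gW G L a) ∧ MNatConcave (gW G L a)) ∧
    (∀ b y, gM G L b y ≠ ⊥ → ∀ a, y a ≤ L) ∧
    ∀ x, Stable (gM G L) (gW G L) x →
      (G.Arrives ↔ ∑ a ∈ univ.filter (fun a => endp G false a = Sum.inl G.d), x false a = 1) := by
  have hL1 : (1 : ℤ) ≤ L := by
    have : 1 ≤ L := by rw [hL]; exact Nat.one_le_two_pow
    exact_mod_cast this
  refine ⟨?_, fun b => ⟨mM_condA cls_endp (fun v => (old_condA hL1 v).1) b,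
    mM_mnat cls_endp (fun v => (old_condA hL1 v).2) b⟩,
    fun a => ⟨mW_condA cls_endp (old_condA' a).1, mW_mnat cls_endp (old_condA' a).2⟩,
    fun b y hy a => gM_le b hy a, fun x hx => arrives_two hod hL hx⟩
  simp only [Fintype.card_sum, Fintype.card_prod, Fintype.card_bool]
  ring

end Pool.Agent.Results.MP_7297fb_lc.TwoAgents
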