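import Pool.Agent.SAQ.Final

/-!
# Stable allocations can be found with polynomially many value evaluations

For all finite sets `M`, `W` of agents there is one deterministic adaptive query algorithm that
finds a stable allocation of every market on `M`, `W` whose value functions are M♮-concave and
satisfy (A), after at most `69633 (|E| + log L + 2)^10` value evaluations, where `E = M × W`.
Nothing but the sets `M` and `W` is given to the algorithm.
-/

namespace Pool.Agent.Results.MP_7297fb_lc.ValueQueries

open SAQ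

theorem result (M W : Type) [Fintype M] [Fintype W] [DecidableEq M] [DecidableEq W] :
    ∃ s : Alg (Query M W) (WithBot ℝ) (M → W → ℤ),
    ∀ (fM : M → (W → ℤ) → WithBot ℝ) (fW : W → (M → ℤ) → WithBot ℝ),
      (∀ i, CondA (fM i)) → (∀ j, CondA (fW j)) →
      (∀ i, MNatConcave (fM i)) → (∀ j, MNatConcave (fW j)) →
      ∀ L : ℕ, (∀ i y, fM i y ≠ ⊥ → ∀ j, y j ≤ L) →
      ∃ x n, s.Returns (val fM fW) x n ∧ Stable fM fW x ∧
        n ≤ 69633 * (Fintype.card (M × W) + Nat.log 2 L + 2) ^ 10 := by
  obtain ⟨s, hs⟩ := main M W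
  exact ⟨s, fun fM fW h1 h2 h3 h4 L hL => hs fM fW ⟨h1, h2, h3, h4⟩ L hL⟩

end Pool.Agent.Results.MP_7297fb_lc.ValueQueries
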